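import Pool.Agent.Helper90.QF.St

/-!
# Project QF (MP_04a253_al), module LAM

The relations satisfied by the generating series of the moments.
-/

set_option autoImplicit false

open Pool.Agent.Helper90.QF MvPolynomial

noncomputable section

namespace Pool.Agent.Helper96.QF

/-! ### power series -/

theorem psmul (p : Polynomial ℂ) (x : PowerSeries ℂ) : p • x = (p : PowerSeries ℂ) * x := by
  rw [Algebra.smul_def, PowerSeries.algebraMap_apply']
  congr 1

theorem X_psmul (x : PowerSeries ℂ) : (Polynomial.X : Polynomial ℂ) • x = PowerSeries.X * x := by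
  rw [psmul, Polynomial.coe_X]

theorem C_psmul (c : ℂ) (x : PowerSeries ℂ) :
    (Polynomial.C c : Polynomial ℂ) • x = PowerSeries.C c * x := by
  rw [psmul, Polynomial.coe_C]

theorem coeff_vt (x : PowerSeries ℂ) (m : ℕ) :
    PowerSeries.coeff m (vt x) = m * PowerSeries.coeff m x := by
  unfold vt
  cases m with
  | zero => simp
  | succ k =>
    rw [PowerSeries.coeff_succ_X_mul, PowerSeries.coeff_derivative]
    push_cast
    ring

theorem vt_add (x y : PowerSeries ℂ) : vt (x + y) = vt x + vt y := by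
  unfold vt
  rw [map_add, mul_add]

theorem vt_one : vt 1 = 0 := by
  unfold vt
  rw [PowerSeries.derivative_one, mul_zero]

theorem vt_smul (p : Polynomial ℂ) (x : PowerSeries ℂ) :
    vt (p • x) = p • vt x + (Polynomial.X * Polynomial.derivative p) • x := by
  unfold vt
  rw [psmul, psmul, psmul, Derivation.leibniz, PowerSeries.derivative_coe, smul_eq_mul,
    smul_eq_mul, Polynomial.coe_mul, Polynomial.coe_X]
  ring

theorem smul_eq_zero' (p : Polynomial ℂ) (hp : p ≠ 0) (x : PowerSeries ℂ) (h : p • x = 0) :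
    x = 0 := by
  rw [psmul] at h
  rcases mul_eq_zero.1 h with h1 | h1
  · exact absurd (Polynomial.coe_eq_zero_iff.1 h1) hp
  · exact h1

theorem vt_exp (a : ℂ) : vt (PowerSeries.mk fun m => a ^ m / m.factorial) =
    (Polynomial.C a * Polynomial.X) • PowerSeries.mk fun m => a ^ m / m.factorial := by
  rw [mul_smul, C_psmul, X_psmul]
  ext m
  rw [coeff_vt, PowerSeries.coeff_C_mul, PowerSeries.coeff_mk]
  cases m with
  | zero => simp
  | succ k =>
    rw [PowerSeries.coeff_succ_X_mul, PowerSeries.coeff_mk, Nat.factorial_succ]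
    have h1 : ((k : ℂ) + 1) ≠ 0 := Nat.cast_add_one_ne_zero k
    have h2 : ((k.factorial : ℕ) : ℂ) ≠ 0 := Nat.cast_ne_zero.2 (Nat.factorial_ne_zero k)
    push_cast
    field_simp
    ring

/-! ### the functional -/

variable {n : ℕ}

theorem LF_X_mul (F : Finset (Fin n)) (i : Fin n) (hi : i ∉ F) (p : MvPolynomial (Fin n) ℂ) :
    LF F (X i * p) = 0 := by
  classical
  induction p using MvPolynomial.induction_on' with
  | monomial s a =>
    have h : (X i * monomial s a : MvPolynomial (Fin n) ℂ) =
        monomial (Finsupp.single i 1 + s) a := by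
      rw [X, monomial_mul, one_mul]
    rw [h, LF_monomial, if_neg, mul_zero]
    intro h2
    have := h2 i hi
    simp at this
  | add p q hp hq => rw [mul_add, map_add, hp, hq, add_zero]

theorem LF_pderiv (F : Finset (Fin n)) (i : Fin n) (hi : i ∈ F) (p : MvPolynomial (Fin n) ℂ) :
    LF F (pderiv i p) = LF F p - LF (F.erase i) p := by
  classical
  induction p using MvPolynomial.induction_on' with
  | monomial s a =>
    rw [pderiv_monomial, LF_monomial, LF_monomial, LF_monomial]
    by_cases hs : s i = 0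
    · have e : (∀ j, j ∉ F.erase i → s j = 0) ↔ (∀ j, j ∉ F → s j = 0) := by
        constructor
        · intro h j hj
          exact h j (fun h2 => hj (Finset.mem_of_mem_erase h2))
        · intro h j hj
          by_cases hji : j = i
          · rw [hji]; exact hs
          · exact h j (fun h2 => hj (Finset.mem_erase.2 ⟨hji, h2⟩))
      simp only [e, hs]
      simp
    · have e1 : ¬ (∀ j, j ∉ F.erase i → s j = 0) := by
        intro h
        exact hs (h i (Finset.notMem_erase i F))
      rw [if_neg e1, mul_zero, sub_zero]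
      have e2 : (∀ j, j ∉ F → (s - Finsupp.single i 1 : Fin n →₀ ℕ) j = 0) ↔
          (∀ j, j ∉ F → s j = 0) := by
        apply forall_congr'
        intro j
        apply imp_congr_right
        intro hj
        have hji : i ≠ j := fun h => hj (h ▸ hi)
        rw [Finsupp.tsub_apply, Finsupp.single_eq_of_ne hji.symm, Nat.sub_zero]
      rw [if_congr e2 rfl rfl]
      by_cases hc : ∀ j, j ∉ F → s j = 0
      · rw [if_pos hc, if_pos hc, mul_assoc]
        congr 1
        rw [← Finset.mul_prod_erase Finset.univ _ (Finset.mem_univ i),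
          ← Finset.mul_prod_erase Finset.univ (fun j => (((s j).factorial : ℕ) : ℂ))
            (Finset.mem_univ i), ← mul_assoc]
        congr 1
        · rw [Finsupp.tsub_apply, Finsupp.single_eq_same, ← Nat.cast_mul,
            Nat.mul_factorial_pred hs]
        · apply Finset.prod_congr rfl
          intro j hj
          rw [Finsupp.tsub_apply, Finsupp.single_eq_of_ne (Finset.ne_of_mem_erase hj),
            Nat.sub_zero]
      · rw [if_neg hc, if_neg hc, mul_zero, mul_zero]
  | add p q hp hq =>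
    rw [map_add, map_add, map_add, map_add, hp, hq]
    ring

theorem LF_C_mul (F : Finset (Fin n)) (c : ℂ) (p : MvPolynomial (Fin n) ℂ) :
    LF F (C c * p) = c * LF F p := by
  rw [← smul_eq_C_mul, map_smul, smul_eq_mul]

theorem coeff_Lam (g : MvPolynomial (Fin n) ℂ) (F : Finset (Fin n)) (h : MvPolynomial (Fin n) ℂ)
    (m : ℕ) : PowerSeries.coeff m (Lam g F h) = LF F (h * g ^ m) / m.factorial := by
  rw [Lam, PowerSeries.coeff_mk]

theorem Lam_add (g : MvPolynomial (Fin n) ℂ) (F : Finset (Fin n))
    (h h' : MvPolynomial (Fin n) ℂ) : Lam g F (h + h') = Lam g F h + Lam g F h' := by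
  ext m
  rw [map_add, coeff_Lam, coeff_Lam, coeff_Lam, add_mul, map_add, add_div]

theorem Lam_C (g : MvPolynomial (Fin n) ℂ) (F : Finset (Fin n)) (c : ℂ)
    (h : MvPolynomial (Fin n) ℂ) :
    Lam g F (C c * h) = (Polynomial.C c : Polynomial ℂ) • Lam g F h := by
  ext m
  rw [C_psmul, PowerSeries.coeff_C_mul, coeff_Lam, coeff_Lam, mul_assoc, LF_C_mul, mul_div_assoc]

theorem Lam_X (g : MvPolynomial (Fin n) ℂ) (F : Finset (Fin n)) (i : Fin n) (hi : i ∉ F)
    (h : MvPolynomial (Fin n) ℂ) : Lam g F (X i * h) = 0 := by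
  ext m
  rw [coeff_Lam, mul_assoc, LF_X_mul F i hi, zero_div, map_zero]

theorem succ_div (k : ℕ) (z : ℂ) :
    ((k : ℂ) + 1) * z / ((k + 1).factorial : ℕ) = z / (k.factorial : ℕ) := by
  have h1 : ((k : ℂ) + 1) ≠ 0 := Nat.cast_add_one_ne_zero k
  have h2 : ((k.factorial : ℕ) : ℂ) ≠ 0 := Nat.cast_ne_zero.2 (Nat.factorial_ne_zero k)
  rw [Nat.factorial_succ]
  push_cast
  field_simp

theorem Lam_pderiv (g : MvPolynomial (Fin n) ℂ) (F : Finset (Fin n)) (i : Fin n) (hi : i ∈ F)
    (h : MvPolynomial (Fin n) ℂ) :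
    Lam g F (pderiv i h) + (Polynomial.X : Polynomial ℂ) • Lam g F (h * pderiv i g) =
      Lam g F h - Lam g (F.erase i) h := by
  ext m
  rw [X_psmul, map_add, map_sub, coeff_Lam, coeff_Lam, coeff_Lam, ← sub_div,
    ← LF_pderiv F i hi, Derivation.leibniz]
  cases m with
  | zero => simp
  | succ k =>
    rw [PowerSeries.coeff_succ_X_mul, coeff_Lam, Derivation.leibniz_pow]
    have e : h • ((k + 1) • g ^ (k + 1 - 1) • pderiv i g) + g ^ (k + 1) • pderiv i h =
        pderiv i h * g ^ (k + 1) + C ((k : ℂ) + 1) * (h * pderiv i g * g ^ k) := by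
      rw [Nat.add_sub_cancel, smul_eq_mul, smul_eq_mul, nsmul_eq_mul, smul_eq_mul, map_add, map_one]
      have : (C (k : ℂ) : MvPolynomial (Fin n) ℂ) = (k : MvPolynomial (Fin n) ℂ) := by
        rw [map_natCast]
      rw [this]
      push_cast
      ring
    rw [e, map_add, LF_C_mul, add_div, succ_div]

theorem Lam_vt (g : MvPolynomial (Fin n) ℂ) (F : Finset (Fin n)) (h : MvPolynomial (Fin n) ℂ) :
    vt (Lam g F h) = (Polynomial.X : Polynomial ℂ) • Lam g F (h * g) := by
  ext m
  rw [X_psmul, coeff_vt, coeff_Lam]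
  cases m with
  | zero => simp
  | succ k =>
    rw [PowerSeries.coeff_succ_X_mul, coeff_Lam, ← succ_div k (LF F (h * g * g ^ k)),
      mul_assoc h g, ← pow_succ']
    push_cast
    ring

theorem LF_const (g : MvPolynomial (Fin n) ℂ) (F : Finset (Fin n)) (a : ℂ)
    (ha : ∀ p : MvPolynomial (Fin n) ℂ, LF F (p * (g - C a)) = 0) (h : MvPolynomial (Fin n) ℂ)
    (m : ℕ) : LF F (h * g ^ m) = a ^ m * LF F h := by
  induction m with
  | zero => simp
  | succ k ih =>
    have e : h * g ^ (k + 1) = h * g ^ k * (g - C a) + C a * (h * g ^ k) := by ring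
    rw [e, map_add, ha, LF_C_mul, ih, zero_add]
    ring

theorem Lam_const (g : MvPolynomial (Fin n) ℂ) (F : Finset (Fin n)) (a : ℂ)
    (ha : ∀ p : MvPolynomial (Fin n) ℂ, LF F (p * (g - C a)) = 0) (h : MvPolynomial (Fin n) ℂ) :
    Lam g F h =
      (Polynomial.C (LF F h) : Polynomial ℂ) • PowerSeries.mk fun m => a ^ m / m.factorial := by
  ext m
  rw [C_psmul, PowerSeries.coeff_C_mul, coeff_Lam, PowerSeries.coeff_mk, LF_const g F a ha]
  ring

theorem hLAM : StLAM :=
  ⟨fun _ g F => ⟨Lam_add g F, Lam_C g F, fun i hi h => Lam_X g F i hi h,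
    fun i hi h => Lam_pderiv g F i hi h, Lam_vt g F, Lam_const g F⟩,
    vt_exp, vt_add, vt_smul, smul_eq_zero', vt_one⟩

end Pool.Agent.Helper96.QF
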